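import Mathlib

/-! Cyclic reduction in an amalgam of two groups (project VR, MP_61a31f_al). -/

set_option autoImplicit false

namespace Pool.Agent.W252.VR

open Monoid

variable {R : Type*} [Group R] {F : Bool → Type*} [∀ i, Group (F i)] (phi : ∀ i, R →* F i)

/-- value of a word -/
noncomputable def val (w : List (Σ i, F i)) : Monoid.PushoutI phi :=
  (w.map (fun p => Monoid.PushoutI.of p.1 p.2)).prod

theorem val_cons (p : Σ i, F i) (w : List (Σ i, F i)) :
    val phi (p :: w) = Monoid.PushoutI.of p.1 p.2 * val phi w := by
  unfold val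
  rw [List.map_cons, List.prod_cons]

theorem val_append (s t : List (Σ i, F i)) : val phi (s ++ t) = val phi s * val phi t := by
  unfold val
  rw [List.map_append, List.prod_append]

theorem exists_val (g : Monoid.PushoutI phi) : ∃ w, val phi w = g := by
  induction g using Monoid.PushoutI.induction_on with
  | of i x => exact ⟨[⟨i, x⟩], by simp [val]⟩
  | base r => exact ⟨[⟨false, phi false r⟩], by
      simp only [val, List.map_cons, List.map_nil, List.prod_cons, List.prod_nil, mul_one]
      exact Monoid.PushoutI.of_apply_eq_base phi false r⟩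
  | mul x y hx hy =>
    obtain ⟨s, hs⟩ := hx
    obtain ⟨t, ht⟩ := hy
    exact ⟨s ++ t, by rw [val_append, hs, ht]⟩

/-- shortest words in the conjugacy class -/
def Mn (g : Monoid.PushoutI phi) (w : List (Σ i, F i)) : Prop :=
  IsConj g (val phi w) ∧ ∀ w', IsConj g (val phi w') → w.length ≤ w'.length

theorem exists_mn (g : Monoid.PushoutI phi) : ∃ w, Mn phi g w := by
  classical
  have hex : ∃ n, ∃ w, IsConj g (val phi w) ∧ w.length = n := by
    obtain ⟨w, hw⟩ := exists_val phi g
    exact ⟨_, w, by rw [hw], rfl⟩
  obtain ⟨w, hw, hlen⟩ := Nat.find_spec hex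
  refine ⟨w, hw, fun w' hw' => ?_⟩
  rw [hlen]
  exact Nat.find_min' hex ⟨w', hw', rfl⟩

theorem Mn.rot {g : Monoid.PushoutI phi} {s t : List (Σ i, F i)} (h : Mn phi g (s ++ t)) :
    Mn phi g (t ++ s) := by
  refine ⟨h.1.trans ?_, fun w' hw' => ?_⟩
  · rw [val_append, val_append, isConj_iff]
    exact ⟨(val phi s)⁻¹, by group⟩
  · have := h.2 w' hw'
    rw [List.length_append] at this ⊢
    omega

theorem Mn.head {g : Monoid.PushoutI phi} {p q : Σ i, F i} {t : List (Σ i, F i)}
    (h : Mn phi g (p :: q :: t)) : p.1 ≠ q.1 ∧ p.2 ∉ (phi p.1).range := by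
  obtain ⟨i, x⟩ := p
  obtain ⟨j, y⟩ := q
  constructor
  · intro hij
    simp only at hij
    subst hij
    have h1 : val phi (⟨i, x⟩ :: ⟨i, y⟩ :: t) = val phi (⟨i, x * y⟩ :: t) := by
      rw [val_cons, val_cons, val_cons, ← mul_assoc, ← map_mul]
    have h2 := h.2 (⟨i, x * y⟩ :: t) (by rw [← h1]; exact h.1)
    simp only [List.length_cons] at h2
    omega
  · rintro ⟨r, hr⟩
    simp only at hr
    have h1 : val phi (⟨i, x⟩ :: ⟨j, y⟩ :: t) = val phi (⟨j, phi j r * y⟩ :: t) := by
      rw [val_cons, val_cons, val_cons, ← mul_assoc]
      congr 1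
      simp only
      rw [← hr, Monoid.PushoutI.of_apply_eq_base, map_mul, Monoid.PushoutI.of_apply_eq_base]
    have h2 := h.2 (⟨j, phi j r * y⟩ :: t) (by rw [← h1]; exact h.1)
    simp only [List.length_cons] at h2
    omega

theorem pairs (n : ℕ) : ∀ w : List (Σ i, F i), w.length ≤ n →
    (∀ s p q t, w = s ++ p :: q :: t → p.1 ≠ q.1) → (∀ p ∈ w, p.2 ∉ (phi p.1).range) →
    (∀ p t, w = p :: t → p.1 = false) → (∀ s p, w = s ++ [p] → p.1 = true) →
    ∃ l : List (F false × F true),
      (∀ p ∈ l, p.1 ∉ (phi false).range ∧ p.2 ∉ (phi true).range) ∧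
      val phi w = (l.map (fun p => Monoid.PushoutI.of false p.1 * Monoid.PushoutI.of true p.2)).prod
      ∧ (w ≠ [] → l ≠ []) := by
  induction n with
  | zero =>
    intro w hw _ _ _ _
    have : w = [] := List.length_eq_zero_iff.mp (by omega)
    subst this
    exact ⟨[], by simp, by simp [val], by simp⟩
  | succ n ih =>
    intro w hw hadj hran hhead hlast
    match w, hw, hadj, hran, hhead, hlast with
    | [], _, _, _, _, _ => exact ⟨[], by simp, by simp [val], by simp⟩
    | [a], _, _, _, hhead, hlast =>
      exfalso
      have h1 := hhead a [] rfl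
      have h2 := hlast [] a rfl
      rw [h1] at h2
      exact Bool.noConfusion h2
    | a :: b :: t, hw, hadj, hran, hhead, hlast =>
      have h1 : a.1 = false := hhead a _ rfl
      have h2 : a.1 ≠ b.1 := hadj [] a b t rfl
      have h3 : b.1 = true := by
        rw [h1] at h2
        cases hb : b.1 with
        | false => rw [hb] at h2; exact absurd rfl h2
        | true => rfl
      have hra := hran a (by simp)
      have hrb := hran b (by simp)
      obtain ⟨l, hl1, hl2, -⟩ := ih t (by simp only [List.length_cons] at hw; omega)
        (fun s p q t' ht => hadj (a :: b :: s) p q t' (by rw [ht]; rfl))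
        (fun p hp => hran p (by simp [hp]))
        (fun p t' ht => by
          have h4 : b.1 ≠ p.1 := hadj [a] b p t' (by rw [ht]; rfl)
          rw [h3] at h4
          cases hp : p.1 with
          | false => rfl
          | true => rw [hp] at h4; exact absurd rfl h4)
        (fun s p ht => hlast (a :: b :: s) p (by rw [ht]; rfl))
      obtain ⟨i, x⟩ := a
      obtain ⟨j, y⟩ := b
      simp only at h1 h3
      subst h1
      subst h3
      refine ⟨(x, y) :: l, ?_, ?_, by simp⟩
      · intro p hp
        rcases List.mem_cons.mp hp with rfl | hp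
        · exact ⟨hra, hrb⟩
        · exact hl1 p hp
      · rw [val_cons, val_cons, hl2, List.map_cons, List.prod_cons, ← mul_assoc]

theorem classify (g : Monoid.PushoutI phi) :
    (∃ (i : Bool) (x : F i), IsConj g (Monoid.PushoutI.of i x)) ∨
    ∃ l : List (F false × F true), l ≠ [] ∧
      (∀ p ∈ l, p.1 ∉ (phi false).range ∧ p.2 ∉ (phi true).range) ∧
      IsConj g
        ((l.map (fun p => Monoid.PushoutI.of false p.1 * Monoid.PushoutI.of true p.2)).prod) := by
  obtain ⟨w, hw⟩ := exists_mn phi g
  match w, hw with
  | [], hw =>
    left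
    refine ⟨false, 1, ?_⟩
    have h := hw.1
    rw [map_one]
    simpa [val] using h
  | [⟨i, x⟩], hw =>
    left
    refine ⟨i, x, ?_⟩
    have h := hw.1
    simpa [val] using h
  | a :: b :: t, hw =>
    right
    -- rotate so that the first index is `false`
    have hrot : ∃ a' b' t', Mn phi g (a' :: b' :: t') ∧ a'.1 = false := by
      cases ha : a.1 with
      | false => exact ⟨a, b, t, hw, ha⟩
      | true =>
        have h1 := hw.head.1
        have hb : b.1 = false := by
          cases hb : b.1 with
          | false => rfl
          | true => rw [ha, hb] at h1; exact absurd rfl h1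
        have h2 : Mn phi g ((b :: t) ++ [a]) := by
          have h3 : Mn phi g ([a] ++ (b :: t)) := hw
          exact h3.rot
        cases t with
        | nil => exact ⟨b, a, [], h2, hb⟩
        | cons c t => exact ⟨b, c, t ++ [a], h2, hb⟩
    obtain ⟨a', b', t', hm, ha'⟩ := hrot
    obtain ⟨l, hl1, hl2, hl3⟩ := pairs phi _ (a' :: b' :: t') le_rfl
      (fun s p q t ht => by
        rw [ht] at hm
        exact (hm.rot).head.1)
      (fun p hp => by
        obtain ⟨s, t, ht⟩ := List.append_of_mem hp
        have hlen : (s ++ p :: t).length = (a' :: b' :: t').length := by rw [ht]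
        rw [ht] at hm
        have hm2 : Mn phi g (p :: (t ++ s)) := hm.rot
        simp only [List.length_append, List.length_cons] at hlen
        match hts : t ++ s with
        | [] =>
          exfalso
          have := congrArg List.length hts
          simp only [List.length_append, List.length_nil] at this
          omega
        | c :: r =>
          rw [hts] at hm2
          exact hm2.head.2)
      (fun p t ht => by
        have : a' = p := (List.cons.inj ht).1
        rw [← this]
        exact ha')
      (fun s p hs => by
        match s, hs with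
        | [], hs => simp at hs
        | c :: s, hs =>
          have hc : a' = c := (List.cons.inj hs).1
          rw [hs] at hm
          have hm2 : Mn phi g (p :: c :: s) := hm.rot
          have h1 := hm2.head.1
          rw [← hc, ha'] at h1
          cases hp : p.1 with
          | false => rw [hp] at h1; exact absurd rfl h1
          | true => rfl)
    refine ⟨l, hl3 (by simp), hl1, ?_⟩
    rw [← hl2]
    exact hm.1

end Pool.Agent.W252.VR
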